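import Mathlib
import Pool.Agent.Lib.MP_4e105e_co.Tour

/-!
Extension of families of partial automorphisms of tournaments: basic definitions, invariant
tournaments for groups without flips, and the composition principle.
-/

set_option autoImplicit false

namespace Pool.Agent.EPPAF

/-- `R` is a tournament on `V`. -/
def Tour {V : Type} (R : V → V → Prop) : Prop :=
  (∀ x, ¬ R x x) ∧ ∀ x y, x ≠ y → (R x y ↔ ¬ R y x)

/-- `g` is an automorphism of the tournament `R`. -/
def IsAut {V : Type} (R : V → V → Prop) (g : V ≃ V) : Prop :=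
  ∀ a b, R a b ↔ R (g a) (g b)

/-- Every partial map of the family `Q` (each one given by its graph) extends to an automorphism of
one finite tournament `(W, S)` containing `(V, R)`. -/
def Extends {V : Type} (R : V → V → Prop) (Q : Set (V → V → Prop)) : Prop :=
  ∃ (W : Type) (_ : Finite W) (S : W → W → Prop), Tour S ∧
    ∃ e : V ↪ W, (∀ x y, R x y ↔ S (e x) (e y)) ∧
      ∀ P ∈ Q, ∃ g : W ≃ W, IsAut S g ∧ ∀ x y, P x y → g (e x) = e y

theorem exists_invariant_tournament {X : Type} (G : Subgroup (Equiv.Perm X)) (O : X → X → Prop)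
    (hns : ∀ g ∈ G, ∀ x y, g x = y → g y = x → x = y)
    (hO : ∀ g ∈ G, ∀ x y, O x y → O (g x) (g y))
    (hanti : ∀ x y, O x y → ¬ O y x) :
    ∃ S : X → X → Prop, Tour S ∧ (∀ g ∈ G, IsAut S g) ∧ ∀ x y, O x y → S x y := by
  classical
  let st : Setoid (X × X) :=
    { r := fun p q => ∃ g ∈ G, g p.1 = q.1 ∧ g p.2 = q.2
      iseqv := by
        refine ⟨fun p => ⟨1, G.one_mem, rfl, rfl⟩, ?_, ?_⟩
        · rintro p q ⟨g, hg, h1, h2⟩
          refine ⟨g⁻¹, G.inv_mem hg, ?_, ?_⟩
          · rw [← h1]; simp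
          · rw [← h2]; simp
        · rintro p q r ⟨g, hg, h1, h2⟩ ⟨h, hh, h3, h4⟩
          refine ⟨h * g, G.mul_mem hh hg, ?_, ?_⟩
          · simp [h1, h3]
          · simp [h2, h4] }
  let mk : X → X → Quotient st := fun x y => Quotient.mk st (x, y)
  have hmk : ∀ g ∈ G, ∀ x y, mk (g x) (g y) = mk x y := by
    intro g hg x y
    refine Quotient.sound ⟨g⁻¹, G.inv_mem hg, ?_, ?_⟩ <;> simp
  have hne : ∀ x y, x ≠ y → mk x y ≠ mk y x := by
    intro x y hxy h
    obtain ⟨g, hg, h1, h2⟩ := Quotient.exact h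
    exact hxy (hns g hg x y h1 h2)
  let r : Quotient st → Quotient st → Prop := WellOrderingRel
  have hrtri : ∀ a b, a ≠ b → r a b ∨ r b a := by
    intro a b hab
    rcases trichotomous_of r a b with h | h | h
    · exact Or.inl h
    · exact absurd h hab
    · exact Or.inr h
  have hrasym : ∀ a b, r a b → ¬ r b a := by
    intro a b h1 h2
    exact asymm_of r h1 h2
  have hOg : ∀ g ∈ G, ∀ x y, O (g x) (g y) ↔ O x y := by
    intro g hg x y
    refine ⟨fun h => ?_, hO g hg x y⟩
    have := hO g⁻¹ (G.inv_mem hg) _ _ h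
    simpa using this
  refine ⟨fun x y => x ≠ y ∧ (O x y ∨ (¬ O x y ∧ ¬ O y x ∧ r (mk x y) (mk y x))), ⟨?_, ?_⟩, ?_, ?_⟩
  · intro x h
    exact h.1 rfl
  · intro x y hxy
    constructor
    · rintro ⟨_, h⟩ ⟨_, h'⟩
      rcases h with h | ⟨h1, h2, h3⟩
      · rcases h' with h' | ⟨h1', h2', h3'⟩
        · exact hanti _ _ h h'
        · exact h2' h
      · rcases h' with h' | ⟨h1', h2', h3'⟩
        · exact h2 h'
        · exact hrasym _ _ h3 h3'
    · intro h
      refine ⟨hxy, ?_⟩
      by_cases h1 : O x y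
      · exact Or.inl h1
      · right
        have h2 : ¬ O y x := fun h2 => h ⟨hxy.symm, Or.inl h2⟩
        refine ⟨h1, h2, ?_⟩
        rcases hrtri _ _ (hne x y hxy) with h3 | h3
        · exact h3
        · exact absurd ⟨hxy.symm, Or.inr ⟨h2, h1, h3⟩⟩ h
  · intro g hg a b
    simp only [hOg g hg, hmk g hg, ne_eq, EmbeddingLike.apply_eq_iff_eq]
  · intro x y h
    refine ⟨?_, Or.inl h⟩
    rintro rfl
    exact hanti _ _ h h

/-- the group of all automorphisms of a tournament -/
def autG {V : Type} (R : V → V → Prop) : Subgroup (Equiv.Perm V) where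
  carrier := {g | IsAut R g}
  one_mem' := by intro a b; rfl
  mul_mem' := by
    intro g h hg hh a b
    rw [hh a b, hg (h a) (h b)]
    rfl
  inv_mem' := by
    intro g hg a b
    rw [hg (g⁻¹ a) (g⁻¹ b)]
    simp

/-- the permutations of `H → W` of the form `f ↦ (k ↦ η k (f (h⁻¹ k)))` -/
def wrG {H W : Type} [Group H] (S : W → W → Prop) : Subgroup (Equiv.Perm (H → W)) where
  carrier := {w | ∃ (h : H) (η : H → Equiv.Perm W), (∀ k, IsAut S (η k)) ∧
    ∀ f k, w f k = η k (f (h⁻¹ * k))}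
  one_mem' := ⟨1, fun _ => 1, fun _ a b => Iff.rfl, by intro f k; simp⟩
  mul_mem' := by
    rintro w1 w2 ⟨h1, η1, a1, b1⟩ ⟨h2, η2, a2, b2⟩
    refine ⟨h1 * h2, fun k => η1 k * η2 (h1⁻¹ * k), ?_, ?_⟩
    · intro k
      exact (autG S).mul_mem (a1 k) (a2 _)
    · intro f k
      rw [Equiv.Perm.mul_apply, b1, b2, Equiv.Perm.mul_apply]
      congr 2
      group
  inv_mem' := by
    rintro w ⟨h, η, a, b⟩
    refine ⟨h⁻¹, fun k => (η (h * k))⁻¹, ?_, ?_⟩
    · intro k
      exact (autG S).inv_mem (a _)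
    · intro f k
      have h0 : w (w⁻¹ f) = f := by simp
      have h1 := b (w⁻¹ f) (h * k)
      rw [h0] at h1
      rw [inv_inv, h1]
      simp

theorem no_swap_of_tour {V : Type} {S : V → V → Prop} (hS : Tour S) {g : Equiv.Perm V}
    (hg : IsAut S g) {x y : V} (h1 : g x = y) (h2 : g y = x) : x = y := by
  by_contra hxy
  have h3 := hg x y
  rw [h1, h2] at h3
  have h4 := hS.2 x y hxy
  tauto

theorem wrG_no_swap {H W : Type} [Group H] [Finite H] (hH : Odd (Nat.card H)) {S : W → W → Prop}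
    (hS : Tour S) (w : Equiv.Perm (H → W)) (hw : w ∈ wrG S) (x y : H → W) (h1 : w x = y)
    (h2 : w y = x) : x = y := by
  obtain ⟨h, η, a, b⟩ := hw
  have hpow : ∀ n : ℕ, ∃ η' : H → Equiv.Perm W, (∀ k, IsAut S (η' k)) ∧
      ∀ f k, (w ^ n) f k = η' k (f ((h ^ n)⁻¹ * k)) := by
    intro n
    induction n with
    | zero => exact ⟨fun _ => 1, fun _ a b => Iff.rfl, by intro f k; simp⟩
    | succ n ih =>
      obtain ⟨η', a', b'⟩ := ih
      refine ⟨fun k => η' k * η ((h ^ n)⁻¹ * k), fun k => (autG S).mul_mem (a' k) (a _), ?_⟩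
      intro f k
      rw [pow_succ, Equiv.Perm.mul_apply, b', b, Equiv.Perm.mul_apply]
      congr 2
      rw [pow_succ]
      group
  have hsq : ∀ m : ℕ, (w ^ (2 * m)) x = x := by
    intro m
    induction m with
    | zero => simp
    | succ m ih =>
      rw [mul_add, pow_add, Equiv.Perm.mul_apply]
      have : (w ^ (2 * 1)) x = x := by
        rw [mul_one, sq, Equiv.Perm.mul_apply, h1, h2]
      rw [this, ih]
  have hsq' : ∀ m : ℕ, (w ^ (2 * m)) y = y := by
    intro m
    induction m with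
    | zero => simp
    | succ m ih =>
      rw [mul_add, pow_add, Equiv.Perm.mul_apply]
      have : (w ^ (2 * 1)) y = y := by
        rw [mul_one, sq, Equiv.Perm.mul_apply, h2, h1]
      rw [this, ih]
  obtain ⟨m, hm⟩ := hH
  obtain ⟨η', a', b'⟩ := hpow (Nat.card H)
  have hx : (w ^ Nat.card H) x = y := by
    rw [hm, pow_succ', Equiv.Perm.mul_apply, hsq, h1]
  have hy : (w ^ Nat.card H) y = x := by
    rw [hm, pow_succ', Equiv.Perm.mul_apply, hsq', h2]
  have hh : h ^ Nat.card H = 1 := pow_card_eq_one'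
  funext k
  have e1 := b' x k
  have e2 := b' y k
  rw [hx, hh, inv_one, one_mul] at e1
  rw [hy, hh, inv_one, one_mul] at e2
  exact no_swap_of_tour hS (a' k) e1.symm e2.symm

/-- Composition principle: automorphisms are free for conjugation-invariant families. -/
theorem compose {V : Type} [Finite V] {R : V → V → Prop} (hR : Tour R)
    (G : Subgroup (Equiv.Perm V)) (hG : ∀ g ∈ G, IsAut R g) (Q : Set (V → V → Prop))
    (hconj : ∀ P ∈ Q, ∀ g ∈ G, (fun x y => P (g x) (g y)) ∈ Q)
    (hext : Extends R Q) :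
    Extends R (Q ∪ {P | ∃ g ∈ G, ∀ x y, P x y → g x = y}) := by
  classical
  obtain ⟨W, hW, S, hS, e, he, hQ⟩ := hext
  have hodd : Odd (Nat.card G) := EPPA.odd_of_tournament V R hR.2 G hG
  let H := G
  let pt : V → (H → W) := fun a k => e ((k⁻¹ : H).1 a)
  let O : (H → W) → (H → W) → Prop := fun f f' =>
    ∃ w ∈ wrG (H := H) S, ∃ a b, R a b ∧ f = w (pt a) ∧ f' = w (pt b)
  have hns := wrG_no_swap (H := H) hodd hS
  have hRk : ∀ (k : H) (a b : V), R a b → S (pt a k) (pt b k) := by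
    intro k a b hab
    exact (he _ _).1 ((hG _ (k⁻¹ : H).2 a b).1 hab)
  have hO : ∀ g ∈ wrG (H := H) S, ∀ x y, O x y → O (g x) (g y) := by
    rintro g hg x y ⟨w, hw, a, b, hab, rfl, rfl⟩
    exact ⟨g * w, (wrG (H := H) S).mul_mem hg hw, a, b, hab, rfl, rfl⟩
  have hanti : ∀ x y, O x y → ¬ O y x := by
    rintro x y ⟨w, hw, a, b, hab, h1, h2⟩ ⟨w', hw', c, d, hcd, h3, h4⟩
    have hu : w'⁻¹ * w ∈ wrG (H := H) S :=
      (wrG (H := H) S).mul_mem ((wrG (H := H) S).inv_mem hw') hw
    have e1 : (w'⁻¹ * w) (pt a) = pt d := by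
      rw [Equiv.Perm.mul_apply, ← h1, h4]
      simp
    have e2 : (w'⁻¹ * w) (pt b) = pt c := by
      rw [Equiv.Perm.mul_apply, ← h2, h3]
      simp
    obtain ⟨h, η, ha, hb⟩ := hu
    have e3 := hb (pt a) 1
    have e4 := hb (pt b) 1
    rw [e1] at e3
    rw [e2] at e4
    have e5 := (ha 1 _ _).1 (hRk (h⁻¹ * 1) a b hab)
    rw [← e3, ← e4] at e5
    have e6 := hRk 1 c d hcd
    have e7 : pt c 1 ≠ pt d 1 := by
      intro h
      rw [h] at e6
      exact hS.1 _ e6
    exact ((hS.2 _ _ e7).1 e6) e5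
  obtain ⟨S', hS', hinv, hOS⟩ := exists_invariant_tournament (wrG (H := H) S) O hns hO hanti
  have hpt : Function.Injective pt := by
    intro a b hab
    have h := congrFun hab 1
    simpa [pt] using h
  have hRO : ∀ a b, R a b → S' (pt a) (pt b) := by
    intro a b hab
    exact hOS _ _ ⟨1, (wrG (H := H) S).one_mem, a, b, hab, rfl, rfl⟩
  refine ⟨H → W, inferInstance, S', hS', ⟨pt, hpt⟩, ?_, ?_⟩
  · intro x y
    refine ⟨hRO x y, fun h => ?_⟩
    by_contra hxy
    by_cases hxe : x = y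
    · subst hxe
      exact hS'.1 _ h
    · have h1 : R y x := by
        by_contra h2
        exact h2 ((hR.2 y x (Ne.symm hxe)).2 hxy)
      have h3 := hRO y x h1
      have h4 : pt x ≠ pt y := fun h => hxe (hpt h)
      exact ((hS'.2 _ _ h4).1 h) h3
  · rintro P (hP | ⟨g, hg, hgP⟩)
    · have hex : ∀ k : H, ∃ q : W ≃ W, IsAut S q ∧ ∀ x y, P (k.1 x) (k.1 y) → q (e x) = e y := by
        intro k
        exact hQ _ (hconj P hP k.1 k.2)
      choose q hq1 hq2 using hex
      let w : Equiv.Perm (H → W) := Equiv.piCongrRight q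
      have hw : w ∈ wrG (H := H) S := by
        refine ⟨1, q, hq1, ?_⟩
        intro f k
        simp [w]
      refine ⟨w, hinv w hw, ?_⟩
      intro x y hxy
      funext k
      have h1 := hq2 k ((k⁻¹ : H).1 x) ((k⁻¹ : H).1 y) (by simpa using hxy)
      simpa [w, pt] using h1
    · let w : Equiv.Perm (H → W) := Equiv.arrowCongr (Equiv.mulLeft (⟨g, hg⟩ : H)) (Equiv.refl W)
      have hwf : ∀ f k, w f k = f ((⟨g, hg⟩ : H)⁻¹ * k) := by
        intro f k
        simp [w, Equiv.arrowCongr]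
      have hw : w ∈ wrG (H := H) S := by
        refine ⟨⟨g, hg⟩, fun _ => 1, fun _ a b => Iff.rfl, ?_⟩
        intro f k
        rw [hwf]
        rfl
      refine ⟨w, hinv w hw, ?_⟩
      intro x y hxy
      funext k
      show w (pt x) k = pt y k
      rw [hwf]
      simp only [pt]
      rw [← hgP x y hxy]
      simp [mul_inv_rev]

end Pool.Agent.EPPAF
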