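import Mathlib
import Pool.Agent.Lib.MP_4e105e_co.Free.Core

/-!
Every finite tournament embeds in a Paley tournament of prime order (Dirichlet and quadratic
reciprocity).
-/

set_option autoImplicit false

namespace Pool.Agent.EPPAF

open Finset

theorem exists_residue (s : ℕ) (hs : s.Prime) (h2 : s ≠ 2) (P : Prop) :
    ∃ c : ℕ, c.Coprime s ∧ (IsSquare (c : ZMod s) ↔ P) := by
  have : Fact s.Prime := ⟨hs⟩
  by_cases hP : P
  · refine ⟨1, by simp, ?_⟩
    simp [hP]
  · obtain ⟨a, ha⟩ := FiniteField.exists_nonsquare (F := ZMod s) (by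
      rw [ZMod.ringChar_zmod_n]; exact h2)
    refine ⟨a.val, ?_, ?_⟩
    · rw [Nat.coprime_comm, hs.coprime_iff_not_dvd]
      intro hd
      apply ha
      have h0 : a = 0 := by
        have := (ZMod.natCast_eq_zero_iff a.val s).2 hd
        simpa using this
      rw [h0]
      exact IsSquare.zero
    · simp only [ZMod.natCast_val, ZMod.cast_id', id_eq, hP, iff_false]
      exact ha

theorem exists_prime_symbols (B : ℕ) (bad : ℕ → Prop) :
    ∃ q, q.Prime ∧ q % 8 = 7 ∧ B < q ∧
      ∀ s, s.Prime → s ≠ 2 → s < B → (IsSquare (s : ZMod q) ↔ ¬ bad s) := by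
  classical
  have hc : ∀ s : ℕ, ∃ c : ℕ, s.Prime → s ≠ 2 → (c.Coprime s ∧
      (IsSquare (c : ZMod s) ↔ (if s % 4 = 1 then ¬ bad s else bad s))) := by
    intro s
    by_cases h : s.Prime ∧ s ≠ 2
    · obtain ⟨c, hc⟩ := exists_residue s h.1 h.2 (if s % 4 = 1 then ¬ bad s else bad s)
      exact ⟨c, fun _ _ => hc⟩
    · exact ⟨0, fun h1 h2 => absurd ⟨h1, h2⟩ h⟩
  choose c hc using hc
  let S : Finset ℕ := (Finset.range B).filter (fun s => s.Prime ∧ s ≠ 2)
  let t : Finset ℕ := insert 8 S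
  have hS : ∀ s ∈ S, s.Prime ∧ s ≠ 2 := by
    intro s hs
    exact (Finset.mem_filter.1 hs).2
  have h8 : ∀ s ∈ S, Nat.Coprime 8 s := by
    intro s hs
    have h1 : Nat.Coprime 2 s := by
      rw [Nat.coprime_primes Nat.prime_two (hS s hs).1]
      exact (hS s hs).2.symm
    exact Nat.Coprime.pow_left 3 h1
  have hpp : Set.Pairwise (t : Set ℕ) (Function.onFun Nat.Coprime (id : ℕ → ℕ)) := by
    intro x hx y hy hxy
    simp only [Function.onFun, id]
    rcases Finset.mem_insert.1 hx with rfl | hx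
    · rcases Finset.mem_insert.1 hy with rfl | hy
      · exact absurd rfl hxy
      · exact h8 y hy
    · rcases Finset.mem_insert.1 hy with rfl | hy
      · exact (h8 x hx).symm
      · exact (Nat.coprime_primes (hS x hx).1 (hS y hy).1).2 hxy
  have ht0 : ∀ i ∈ t, (id : ℕ → ℕ) i ≠ 0 := by
    intro i hi
    rcases Finset.mem_insert.1 hi with rfl | hi
    · decide
    · exact (hS i hi).1.ne_zero
  obtain ⟨k, hk⟩ := Nat.chineseRemainderOfFinset (fun s => if s = 8 then 7 else c s) id t ht0 hpp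
  have hk8 : k ≡ 7 [MOD 8] := by
    have := hk 8 (Finset.mem_insert_self _ _)
    simpa using this
  have hks : ∀ s ∈ S, k ≡ c s [MOD s] := by
    intro s hs
    have h1 := hk s (Finset.mem_insert_of_mem hs)
    have h2 : s ≠ 8 := by
      rintro rfl
      have := (hS 8 hs).1
      revert this
      decide
    simpa [h2] using h1
  have hcop : Nat.Coprime k (∏ i ∈ t, i) := by
    apply Nat.Coprime.prod_right
    intro i hi
    rcases Finset.mem_insert.1 hi with rfl | hi
    · have h1 : k % 8 = 7 := hk8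
      have h2 : Nat.Coprime k 2 := by
        rw [Nat.coprime_two_right, Nat.odd_iff]
        omega
      exact Nat.Coprime.pow_right 3 h2
    · have h1 := (hks i hi).gcd_eq
      have h2 := (hc i (hS i hi).1 (hS i hi).2).1
      unfold Nat.Coprime at *
      rw [h1]
      exact h2
  have hne : (∏ i ∈ t, i) ≠ 0 := Finset.prod_ne_zero_iff.2 ht0
  obtain ⟨q, hq, hqp, hqk⟩ := Nat.forall_exists_prime_gt_and_modEq B hne hcop
  have hqi : ∀ i ∈ t, q ≡ k [MOD i] := by
    intro i hi
    exact hqk.of_dvd (Finset.dvd_prod_of_mem _ hi)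
  have hq8 : q % 8 = 7 := by
    have := (hqi 8 (Finset.mem_insert_self _ _)).trans hk8
    exact this
  refine ⟨q, hqp, hq8, hq, ?_⟩
  intro s hs h2 hsB
  have hsS : s ∈ S := Finset.mem_filter.2 ⟨Finset.mem_range.2 hsB, hs, h2⟩
  have h3 : q ≡ c s [MOD s] := (hqi s (Finset.mem_insert_of_mem hsS)).trans (hks s hsS)
  have h4 : (q : ZMod s) = (c s : ZMod s) := (ZMod.natCast_eq_natCast_iff _ _ _).2 h3
  have h5 := (hc s hs h2).2
  rw [← h4] at h5
  have : Fact s.Prime := ⟨hs⟩
  have : Fact q.Prime := ⟨hqp⟩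
  have hodd : s % 2 = 1 := hs.eq_two_or_odd.resolve_left h2
  by_cases h6 : s % 4 = 1
  · rw [if_pos h6] at h5
    rw [← h5]
    exact (ZMod.exists_sq_eq_prime_iff_of_mod_four_eq_one h6 (by omega)).symm
  · rw [if_neg h6] at h5
    have h7 := ZMod.exists_sq_eq_prime_iff_of_mod_four_eq_three (p := s) (q := q) (by omega)
      (by omega) (by omega)
    rw [← h5, h7, not_not]

theorem isSquare_of_factors (q : ℕ) (D : ℕ) (hD : D ≠ 0)
    (h : ∀ s, s.Prime → s ∣ D → IsSquare (s : ZMod q)) : IsSquare (D : ZMod q) := by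
  induction D using Nat.strong_induction_on with
  | _ D ih =>
    by_cases h1 : D = 1
    · subst h1
      simp
    · have hp := Nat.minFac_prime h1
      have hd := Nat.minFac_dvd D
      obtain ⟨E, hE⟩ := hd
      have hE0 : E ≠ 0 := by
        rintro rfl
        exact hD (by simpa using hE)
      have hlt : E < D := by
        conv_rhs => rw [hE]
        have := hp.two_le
        nlinarith [Nat.pos_of_ne_zero hE0]
      have h2 := ih E hlt hE0 (fun s hs hsE => h s hs (hE ▸ Dvd.dvd.mul_left hsE _))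
      have h3 := h _ hp (Nat.minFac_dvd D)
      rw [hE, Nat.cast_mul]
      exact h3.mul h2

theorem exists_config (n : ℕ) : ∃ (N : Fin n → ℕ) (r : Fin n → Fin n → ℕ),
    StrictMono N ∧ (∀ i j, (r i j).Prime ∧ r i j ≠ 2) ∧
    (∀ i j k l, r i j = r k l → i = k ∧ j = l) ∧
    (∀ i j, i < j → ∀ u v, u < v → r i j ∣ N v - N u → u = i ∧ v = j) ∧
    (∀ i j, i < j → r i j ∣ N j - N i ∧ ¬ (r i j) ^ 2 ∣ N j - N i) := by
  classical
  let r : Fin n → Fin n → ℕ := fun i j => Nat.nth Nat.Prime (n + i * n + j)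
  have hrp : ∀ i j, (r i j).Prime := fun i j => Nat.prime_nth_prime _
  have hrn : ∀ i j, n + 2 ≤ r i j := by
    intro i j
    have h := Nat.add_two_le_nth_prime (n + i * n + j)
    show n + 2 ≤ Nat.nth Nat.Prime (n + i * n + j)
    omega
  have hrinj : ∀ i j k l, r i j = r k l → i = k ∧ j = l := by
    intro i j k l h
    have h1 := Nat.nth_injective Nat.infinite_setOf_prime h
    have hi := i.2
    have hj := j.2
    have hk := k.2
    have hl := l.2
    have h2 : (i : ℕ) = k := by
      rcases lt_trichotomy (i : ℕ) k with h3 | h3 | h3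
      · exfalso
        have : ((i : ℕ) + 1) * n ≤ k * n := Nat.mul_le_mul_right _ h3
        nlinarith
      · exact h3
      · exfalso
        have : ((k : ℕ) + 1) * n ≤ i * n := Nat.mul_le_mul_right _ h3
        nlinarith
    refine ⟨Fin.ext h2, Fin.ext ?_⟩
    rw [h2] at h1
    omega
  let s : Fin n × Fin n → ℕ := fun p => (r p.1 p.2) ^ 2
  have hs0 : ∀ p ∈ (Finset.univ : Finset (Fin n × Fin n)), s p ≠ 0 := by
    intro p _
    exact pow_ne_zero _ (hrp _ _).ne_zero
  have hpp : Set.Pairwise ((Finset.univ : Finset (Fin n × Fin n)) : Set (Fin n × Fin n))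
      (Function.onFun Nat.Coprime s) := by
    intro x _ y _ hxy
    simp only [Function.onFun, s]
    apply Nat.Coprime.pow
    rw [Nat.coprime_primes (hrp _ _) (hrp _ _)]
    intro h
    obtain ⟨h1, h2⟩ := hrinj _ _ _ _ h
    exact hxy (Prod.ext h1 h2)
  let a : Fin n → Fin n × Fin n → ℕ := fun v p =>
    if v = p.1 then 0 else if v = p.2 then r p.1 p.2 else v + 1
  let P : ℕ := ∏ p : Fin n × Fin n, s p
  let N0 : Fin n → ℕ := fun v => (Nat.chineseRemainderOfFinset (a v) s Finset.univ hs0 hpp : ℕ)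
  have hN0 : ∀ v, N0 v < P := fun v => Nat.chineseRemainderOfFinset_lt_prod (a v) s hs0 hpp
  have hN0m : ∀ v p, N0 v ≡ a v p [MOD s p] := fun v p =>
    (Nat.chineseRemainderOfFinset (a v) s Finset.univ hs0 hpp).2 p (Finset.mem_univ _)
  let N : Fin n → ℕ := fun v => N0 v + v * P
  have hNm : ∀ v p, N v ≡ a v p [MOD s p] := by
    intro v p
    refine Nat.ModEq.trans ?_ (hN0m v p)
    have h1 : s p ∣ (v : ℕ) * P := Dvd.dvd.mul_left (Finset.dvd_prod_of_mem _ (Finset.mem_univ p)) _
    have h2 : (v : ℕ) * P ≡ 0 [MOD s p] := (Nat.modEq_zero_iff_dvd).2 h1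
    have h3 := Nat.ModEq.add_left (N0 v) h2
    rw [add_zero] at h3
    exact h3
  have hmono : StrictMono N := by
    intro u v huv
    have h1 := hN0 u
    have h2 : ((u : ℕ) + 1) * P ≤ v * P := Nat.mul_le_mul_right _ huv
    show N0 u + u * P < N0 v + v * P
    nlinarith [Nat.zero_le (N0 v)]
  have hi0 : ∀ i j : Fin n, i ≠ j → N i ≡ 0 [MOD (r i j) ^ 2] := by
    intro i j hij
    have h := hNm i (i, j)
    simpa [a, s] using h
  have hj0 : ∀ i j : Fin n, i ≠ j → N j ≡ r i j [MOD (r i j) ^ 2] := by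
    intro i j hij
    have h := hNm j (i, j)
    simpa [a, s, hij.symm] using h
  have hw0 : ∀ i j w : Fin n, w ≠ i → w ≠ j → N w ≡ w + 1 [MOD (r i j) ^ 2] := by
    intro i j w h1 h2
    have h := hNm w (i, j)
    simpa [a, s, h1, h2] using h
  have hdown : ∀ (i j : Fin n) (x y : ℕ), x ≡ y [MOD (r i j) ^ 2] → x ≡ y [MOD r i j] := by
    intro i j x y h
    exact h.of_dvd (dvd_pow_self _ two_ne_zero)
  have hr0 : ∀ i j : Fin n, r i j ≡ 0 [MOD r i j] := by
    intro i j
    exact (Nat.modEq_zero_iff_dvd).2 dvd_rfl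
  have hsmall : ∀ (i j w : Fin n), ¬ ((w : ℕ) + 1 ≡ 0 [MOD r i j]) := by
    intro i j w h
    have h1 := Nat.le_of_dvd (by omega) ((Nat.modEq_zero_iff_dvd).1 h)
    have h2 := hrn i j
    have h3 := w.2
    omega
  refine ⟨N, r, hmono, ?_, hrinj, ?_, ?_⟩
  · intro i j
    refine ⟨hrp i j, ?_⟩
    have h1 := hrn i j
    have h2 := i.2
    omega
  · intro i j hij u v huv hd
    have hle : N u ≤ N v := (hmono huv).le
    have h1 : N u ≡ N v [MOD r i j] := (Nat.modEq_iff_dvd' hle).2 hd
    by_cases hui : u = i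
    · subst hui
      refine ⟨rfl, ?_⟩
      by_contra hvj
      have h2 := hdown _ _ _ _ (hi0 u j hij.ne)
      have h3 := hdown _ _ _ _ (hw0 u j v huv.ne' hvj)
      exact hsmall u j v (h3.symm.trans (h1.symm.trans h2))
    · exfalso
      by_cases huj : u = j
      · subst huj
        have h2 := (hdown _ _ _ _ (hj0 i u hij.ne)).trans (hr0 i u)
        have h3 := hdown _ _ _ _ (hw0 i u v (hij.trans huv).ne' huv.ne')
        exact hsmall i u v (h3.symm.trans (h1.symm.trans h2))
      · have h2 := hdown _ _ _ _ (hw0 i j u hui huj)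
        by_cases hvi : v = i
        · subst hvi
          have h3 := hdown _ _ _ _ (hi0 v j hij.ne)
          exact hsmall v j u (h2.symm.trans (h1.trans h3))
        · by_cases hvj : v = j
          · subst hvj
            have h3 := (hdown _ _ _ _ (hj0 i v hij.ne)).trans (hr0 i v)
            exact hsmall i v u (h2.symm.trans (h1.trans h3))
          · have h3 := hdown _ _ _ _ (hw0 i j v hvi hvj)
            have h4 : (u : ℕ) + 1 ≡ v + 1 [MOD r i j] := h2.symm.trans (h1.trans h3)
            have h5 := hrn i j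
            have h6 := u.2
            have h7 := v.2
            have h8 := Nat.ModEq.eq_of_lt_of_lt h4 (by omega) (by omega)
            have h9 : (u : ℕ) < v := huv
            omega
  · intro i j hij
    have hle : N i ≤ N j := (hmono hij).le
    constructor
    · rw [← Nat.modEq_iff_dvd' hle]
      exact (hdown _ _ _ _ (hi0 i j hij.ne)).trans
        ((hdown _ _ _ _ (hj0 i j hij.ne)).trans (hr0 i j)).symm
    · rw [← Nat.modEq_iff_dvd' hle]
      intro h
      have h1 : r i j ≡ 0 [MOD (r i j) ^ 2] :=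
        (hj0 i j hij.ne).symm.trans (h.symm.trans (hi0 i j hij.ne))
      have h2 := Nat.le_of_dvd (hrp i j).pos ((Nat.modEq_zero_iff_dvd).1 h1)
      have h3 := (hrp i j).two_le
      nlinarith

theorem paley_fin (n : ℕ) (R : Fin n → Fin n → Prop) (hR : Tour R) :
    ∃ q, q.Prime ∧ q % 4 = 3 ∧ ∃ e : Fin n → ZMod q,
      ∀ x y, R x y → IsSquare (e y - e x) ∧ e y - e x ≠ 0 := by
  classical
  obtain ⟨N, r, hmono, hrp, hrinj, hdiv, hdiv2⟩ := exists_config n
  obtain ⟨q, hq, hq8, hqB, hsym⟩ := exists_prime_symbols (1 + ∑ v, N v)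
    (fun s => ∃ i j, i < j ∧ R j i ∧ s = r i j)
  have : Fact q.Prime := ⟨hq⟩
  have hNB : ∀ v, N v < 1 + ∑ v, N v := by
    intro v
    have := Finset.single_le_sum (f := N) (fun i _ => Nat.zero_le _) (Finset.mem_univ v)
    omega
  have hcast : ∀ u v, u < v → (N v : ZMod q) - N u = ((N v - N u : ℕ) : ZMod q) := by
    intro u v huv
    rw [Nat.cast_sub (hmono huv).le]
  have hne : ∀ u v, u < v → ((N v - N u : ℕ) : ZMod q) ≠ 0 := by
    intro u v huv h
    have h1 := (ZMod.natCast_eq_zero_iff _ _).1 h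
    have h2 := hmono huv
    have h3 := Nat.le_of_dvd (by omega) h1
    have h4 := hNB v
    omega
  have h2sq : IsSquare ((2 : ℕ) : ZMod q) := by
    have := (ZMod.exists_sq_eq_two_iff (p := q) (by omega)).2 (Or.inr hq8)
    simpa using this
  have hsq : ∀ (D : ℕ), D ≠ 0 → D < 1 + ∑ v, N v →
      (∀ s, s.Prime → s ∣ D → ¬ ∃ i j, i < j ∧ R j i ∧ s = r i j) → IsSquare (D : ZMod q) := by
    intro D hD hDB h
    apply isSquare_of_factors q D hD
    intro s hs hsD
    by_cases h2 : s = 2
    · subst h2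
      exact h2sq
    · have h3 : s < 1 + ∑ v, N v := lt_of_le_of_lt (Nat.le_of_dvd (Nat.pos_of_ne_zero hD) hsD) hDB
      exact (hsym s hs h2 h3).2 (h s hs hsD)
  refine ⟨q, hq, by omega, fun v => (N v : ZMod q), ?_⟩
  intro x y hxy
  rcases lt_trichotomy x y with h | h | h
  · simp only [hcast x y h]
    refine ⟨?_, hne x y h⟩
    have h1 := hmono h
    have h2 := hNB y
    apply hsq _ (by omega) (by omega)
    rintro s hs hsD ⟨i, j, hij, hji, rfl⟩
    obtain ⟨rfl, rfl⟩ := hdiv i j hij x y h hsD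
    exact ((hR.2 x y h.ne).1 hxy) hji
  · subst h
    exact absurd hxy (hR.1 _)
  · have h1 := hmono h
    have h2 := hNB x
    have h3 : (N y : ZMod q) - N x = -((N x - N y : ℕ) : ZMod q) := by
      rw [← hcast y x h]
      ring
    simp only [h3]
    refine ⟨?_, neg_ne_zero.2 (hne y x h)⟩
    obtain ⟨⟨D', hD'⟩, hd2⟩ := hdiv2 y x h
    have hD0 : D' ≠ 0 := by
      rintro rfl
      rw [mul_zero] at hD'
      omega
    have hle : D' ≤ N x - N y := by
      rw [hD']
      exact Nat.le_mul_of_pos_left _ (hrp y x).1.pos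
    have hsD' : IsSquare (D' : ZMod q) := by
      apply hsq _ hD0 (by omega)
      rintro s hs hsD ⟨i, j, hij, hji, rfl⟩
      have h4 : r i j ∣ N x - N y := by
        rw [hD']
        exact Dvd.dvd.mul_left hsD _
      obtain ⟨rfl, rfl⟩ := hdiv i j hij y x h h4
      apply hd2
      rw [hD', sq]
      exact Nat.mul_dvd_mul_left _ hsD
    have hrB : r y x < 1 + ∑ v, N v := by
      have h4 : r y x ≤ N x - N y := Nat.le_of_dvd (by omega) ⟨D', hD'⟩
      omega
    have hrns : ¬ IsSquare ((r y x : ℕ) : ZMod q) := by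
      intro hcon
      exact (hsym _ (hrp y x).1 (hrp y x).2 hrB).1 hcon ⟨y, x, h, hxy, rfl⟩
    have hD0' : (D' : ZMod q) ≠ 0 := by
      intro h4
      apply hne y x h
      rw [hD', Nat.cast_mul, h4, mul_zero]
    have hDns : ¬ IsSquare ((N x - N y : ℕ) : ZMod q) := by
      rw [hD', Nat.cast_mul]
      intro hcon
      apply hrns
      have h5 := hcon.div hsD'
      rwa [mul_div_assoc, div_self hD0', mul_one] at h5
    have hm1 : ¬ IsSquare (-1 : ZMod q) := by
      rw [ZMod.exists_sq_eq_neg_one_iff]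
      omega
    have hq2 : ringChar (ZMod q) ≠ 2 := by
      rw [ZMod.ringChar_zmod_n]
      omega
    have e1 := (quadraticChar_neg_one_iff_not_isSquare (F := ZMod q)).2 hDns
    have e2 := (quadraticChar_neg_one_iff_not_isSquare (F := ZMod q)).2 hm1
    have e3 : quadraticChar (ZMod q) (-((N x - N y : ℕ) : ZMod q)) = 1 := by
      rw [neg_eq_neg_one_mul, map_mul, e1, e2]
      norm_num
    exact (quadraticChar_one_iff_isSquare (neg_ne_zero.2 (hne y x h))).1 e3

theorem paley {V : Type} [Finite V] {R : V → V → Prop} (hR : Tour R) :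
    ∃ q, q.Prime ∧ q % 4 = 3 ∧ ∃ e : V → ZMod q,
      ∀ x y, R x y → IsSquare (e y - e x) ∧ e y - e x ≠ 0 := by
  obtain ⟨n, ⟨f⟩⟩ := Finite.exists_equiv_fin V
  obtain ⟨q, hq, hq4, e, he⟩ := paley_fin n (fun i j => R (f.symm i) (f.symm j)) ⟨fun x => hR.1 _,
    fun x y hxy => hR.2 _ _ (fun h => hxy (f.symm.injective h))⟩
  refine ⟨q, hq, hq4, fun v => e (f v), ?_⟩
  intro x y hxy
  exact he (f x) (f y) (by simpa using hxy)

end Pool.Agent.EPPAF
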