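import Mathlib
import Pool.Agent.Lib.MP_4e105e_co.Free.Paley

/-!
Partial automorphisms on at most two vertices are free.
-/

set_option autoImplicit false

namespace Pool.Agent.EPPAF

/-- `P` is the graph of a partial automorphism of the tournament `R`. -/
def IsPAut {V : Type} (R : V → V → Prop) (P : V → V → Prop) : Prop :=
  ∀ x x' y y', P x x' → P y y' → (R x y ↔ R x' y')

/-- the partial automorphisms of `R` with at most two vertices in the domain -/
def SmallMaps {V : Type} (R : V → V → Prop) : Set (V → V → Prop) :=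
  {P | IsPAut R P ∧ ∃ a b, ∀ x y, P x y → x = a ∨ x = b}

theorem Extends.pull {V W : Type} {R : V → V → Prop} {S : W → W → Prop}
    {Q : Set (V → V → Prop)} {Q' : Set (W → W → Prop)} (e : V ↪ W)
    (he : ∀ x y, R x y ↔ S (e x) (e y))
    (hQ : ∀ P ∈ Q, ∃ P' ∈ Q', ∀ x y, P x y → P' (e x) (e y)) (h : Extends S Q') :
    Extends R Q := by
  obtain ⟨X, hX, T, hT, f, hf, hf2⟩ := h
  refine ⟨X, hX, T, hT, e.trans f, ?_, ?_⟩
  · intro x y
    rw [he x y, hf (e x) (e y)]
    rfl
  · intro P hP
    obtain ⟨P', hP', hPP⟩ := hQ P hP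
    obtain ⟨g, hg, hg2⟩ := hf2 P' hP'
    exact ⟨g, hg, fun x y hxy => hg2 _ _ (hPP x y hxy)⟩

theorem IsPAut.functional {V : Type} {R : V → V → Prop} (hR : Tour R) {P : V → V → Prop}
    (hP : IsPAut R P) {x y z : V} (h1 : P x y) (h2 : P x z) : y = z := by
  by_contra h
  have h3 := hP x y x z h1 h2
  have h4 := hP x z x y h2 h1
  have h5 := hR.2 y z h
  have h6 := hR.1 x
  tauto

theorem IsPAut.injective {V : Type} {R : V → V → Prop} (hR : Tour R) {P : V → V → Prop}
    (hP : IsPAut R P) {x y z : V} (h1 : P x z) (h2 : P y z) : x = y := by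
  by_contra h
  have h3 := hP x z y z h1 h2
  have h4 := hP y z x z h2 h1
  have h5 := hR.2 x y h
  have h6 := hR.1 z
  tauto

theorem small_maps {V : Type} [Finite V] {R : V → V → Prop} (hR : Tour R) :
    Extends R (SmallMaps R) := by
  classical
  obtain ⟨q, hq, hq4, e, he⟩ := paley hR
  have : Fact q.Prime := ⟨hq⟩
  have hm1 : ¬ IsSquare (-1 : ZMod q) := by
    rw [ZMod.exists_sq_eq_neg_one_iff]
    omega
  have hq2 : ringChar (ZMod q) ≠ 2 := by
    rw [ZMod.ringChar_zmod_n]
    omega
  have hneg : ∀ z : ZMod q, z ≠ 0 → (IsSquare z ↔ ¬ IsSquare (-z)) := by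
    intro z hz
    constructor
    · intro h1 h2
      apply hm1
      have h3 := h2.div h1
      rwa [neg_div, div_self hz] at h3
    · intro h1
      have e1 := (quadraticChar_neg_one_iff_not_isSquare (F := ZMod q)).2 h1
      have e2 := (quadraticChar_neg_one_iff_not_isSquare (F := ZMod q)).2 hm1
      have e3 : quadraticChar (ZMod q) z = 1 := by
        rw [neg_eq_neg_one_mul, map_mul, e2] at e1
        linarith
      exact (quadraticChar_one_iff_isSquare hz).1 e3
  let S : ZMod q → ZMod q → Prop := fun x y => x ≠ y ∧ IsSquare (y - x)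
  have hS : Tour S := by
    refine ⟨fun x h => h.1 rfl, ?_⟩
    intro x y hxy
    have h1 := hneg (y - x) (sub_ne_zero.2 hxy.symm)
    rw [neg_sub] at h1
    simp only [S]
    constructor
    · rintro ⟨_, h2⟩ ⟨_, h3⟩
      exact h1.1 h2 h3
    · intro h2
      refine ⟨hxy, h1.2 fun h3 => h2 ⟨hxy.symm, h3⟩⟩
  have hRS : ∀ x y, R x y → S (e x) (e y) := by
    intro x y hxy
    obtain ⟨h1, h2⟩ := he x y hxy
    exact ⟨fun h => h2 (by rw [h]; ring), h1⟩
  have hinj : Function.Injective e := by
    intro x y hxy
    by_contra h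
    by_cases h1 : R x y
    · have := hRS x y h1
      exact this.1 hxy
    · have h2 : R y x := by
        by_contra h3
        exact h3 ((hR.2 y x (Ne.symm h)).2 h1)
      have := hRS y x h2
      exact this.1 hxy.symm
  have hiff : ∀ x y, R x y ↔ S (e x) (e y) := by
    intro x y
    refine ⟨hRS x y, fun h => ?_⟩
    by_contra hxy
    by_cases hxe : x = y
    · subst hxe
      exact hS.1 _ h
    · have h1 : R y x := by
        by_contra h2
        exact h2 ((hR.2 y x (Ne.symm hxe)).2 hxy)
      have h3 := hRS y x h1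
      have h4 : e x ≠ e y := fun h => hxe (hinj h)
      exact ((hS.2 _ _ h4).1 h) h3
  -- affine automorphisms
  have haff : ∀ (s t : ZMod q), s ≠ 0 → IsSquare s →
      ∃ g : ZMod q ≃ ZMod q, IsAut S g ∧ ∀ z, g z = s * z + t := by
    intro s t hs hsq
    refine ⟨⟨fun z => s * z + t, fun z => s⁻¹ * (z - t), ?_, ?_⟩, ?_, fun z => rfl⟩
    · intro z
      field_simp
      ring
    · intro z
      field_simp
      ring
    · intro a b
      show (a ≠ b ∧ IsSquare (b - a)) ↔ (s * a + t ≠ s * b + t ∧ IsSquare (s * b + t - (s * a + t)))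
      have h1 : s * b + t - (s * a + t) = s * (b - a) := by ring
      rw [h1]
      constructor
      · rintro ⟨h2, h3⟩
        refine ⟨fun h4 => h2 ?_, hsq.mul h3⟩
        have h5 : s * (b - a) = 0 := by rw [← h1, h4]; ring
        rcases mul_eq_zero.1 h5 with h6 | h6
        · exact absurd h6 hs
        · exact (sub_eq_zero.1 h6).symm
      · rintro ⟨h2, h3⟩
        refine ⟨fun h4 => h2 (by rw [h4]), ?_⟩
        have h4 := h3.div hsq
        rwa [mul_div_assoc, mul_div_cancel₀ _ hs] at h4
  refine ⟨ZMod q, inferInstance, S, hS, ⟨e, hinj⟩, hiff, ?_⟩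
  rintro P ⟨hP, a, b, hab⟩
  by_cases ha : ∃ a', P a a'
  · obtain ⟨a', ha'⟩ := ha
    by_cases hb : ∃ b', P b b'
    · obtain ⟨b', hb'⟩ := hb
      by_cases hne : a = b
      · subst hne
        obtain ⟨g, hg, hg2⟩ := haff 1 (e a' - e a) one_ne_zero IsSquare.one
        refine ⟨g, hg, ?_⟩
        intro x y hxy
        have hx : x = a := by
          rcases hab x y hxy with h | h <;> exact h
        subst hx
        have hy := hP.functional hR hxy ha'
        subst hy
        show g (e x) = e y
        rw [hg2]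
        ring
      · -- two points
        have hne' : a' ≠ b' := fun h => hne (hP.injective hR ha' (h ▸ hb'))
        have hratio : ∃ s : ZMod q, s ≠ 0 ∧ IsSquare s ∧ s * (e b - e a) = e b' - e a' := by
          by_cases h1 : R a b
          · obtain ⟨h2, h3⟩ := he a b h1
            obtain ⟨h4, h5⟩ := he a' b' ((hP a a' b b' ha' hb').1 h1)
            exact ⟨(e b' - e a') / (e b - e a), div_ne_zero h5 h3, h4.div h2,
              div_mul_cancel₀ _ h3⟩
          · have h1' : R b a := by
              by_contra h2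
              exact h1 ((hR.2 a b hne).2 h2)
            obtain ⟨h2, h3⟩ := he b a h1'
            obtain ⟨h4, h5⟩ := he b' a' ((hP b b' a a' hb' ha').1 h1')
            refine ⟨(e a' - e b') / (e a - e b), div_ne_zero h5 h3, h4.div h2, ?_⟩
            have h6 := div_mul_cancel₀ (e a' - e b') h3
            linear_combination -h6
        obtain ⟨s, hs, hsq, hse⟩ := hratio
        obtain ⟨g, hg, hg2⟩ := haff s (e a' - s * e a) hs hsq
        refine ⟨g, hg, ?_⟩
        intro x y hxy
        show g (e x) = e y
        rw [hg2]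
        rcases hab x y hxy with h | h
        · subst h
          have hy := hP.functional hR hxy ha'
          subst hy
          ring
        · subst h
          have hy := hP.functional hR hxy hb'
          subst hy
          linear_combination hse
    · obtain ⟨g, hg, hg2⟩ := haff 1 (e a' - e a) one_ne_zero IsSquare.one
      refine ⟨g, hg, ?_⟩
      intro x y hxy
      have hx : x = a := by
        rcases hab x y hxy with h | h
        · exact h
        · exact absurd ⟨y, h ▸ hxy⟩ hb
      subst hx
      have hy := hP.functional hR hxy ha'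
      subst hy
      show g (e x) = e y
      rw [hg2]
      ring
  · by_cases hb : ∃ b', P b b'
    · obtain ⟨b', hb'⟩ := hb
      obtain ⟨g, hg, hg2⟩ := haff 1 (e b' - e b) one_ne_zero IsSquare.one
      refine ⟨g, hg, ?_⟩
      intro x y hxy
      have hx : x = b := by
        rcases hab x y hxy with h | h
        · exact absurd ⟨y, h ▸ hxy⟩ ha
        · exact h
      subst hx
      have hy := hP.functional hR hxy hb'
      subst hy
      show g (e x) = e y
      rw [hg2]
      ring
    · refine ⟨Equiv.refl _, fun a b => Iff.rfl, ?_⟩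
      intro x y hxy
      rcases hab x y hxy with h | h
      · exact absurd ⟨y, h ▸ hxy⟩ ha
      · exact absurd ⟨y, h ▸ hxy⟩ hb

/-- Partial automorphisms with at most two vertices are free relative to any extendable family. -/
theorem small_free {V : Type} {R : V → V → Prop} (Fam : Set (V → V → Prop))
    (h : Extends R Fam) : Extends R (Fam ∪ SmallMaps R) := by
  obtain ⟨W, hW, S, hS, e, he, hF⟩ := h
  have h1 := compose hS (autG S) (fun g hg => hg) (SmallMaps S) (by
    rintro P ⟨hP, a, b, hab⟩ g hg
    refine ⟨?_, g.symm a, g.symm b, ?_⟩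
    · intro x x' y y' hx hy
      have h2 := hP _ _ _ _ hx hy
      rw [hg x y, hg x' y']
      exact h2
    · intro x y hxy
      rcases hab _ _ hxy with h2 | h2
      · left; rw [← h2]; simp
      · right; rw [← h2]; simp) (small_maps hS)
  refine Extends.pull e he ?_ h1
  rintro P (hP | ⟨hP, a, b, hab⟩)
  · obtain ⟨g, hg, hg2⟩ := hF P hP
    exact ⟨fun x y => g x = y, Or.inr ⟨g, hg, fun x y h => h⟩, hg2⟩
  · refine ⟨fun x y => ∃ x0 y0, P x0 y0 ∧ e x0 = x ∧ e y0 = y, Or.inl ⟨?_, e a, e b, ?_⟩, ?_⟩
    · rintro _ _ _ _ ⟨x, x', h2, rfl, rfl⟩ ⟨y, y', h3, rfl, rfl⟩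
      rw [← he, ← he]
      exact hP x x' y y' h2 h3
    · rintro _ _ ⟨x, y, h2, rfl, rfl⟩
      rcases hab x y h2 with h3 | h3
      · left; rw [h3]
      · right; rw [h3]
    · intro x y hxy
      exact ⟨x, y, hxy, rfl, rfl⟩

end Pool.Agent.EPPAF
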