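import Mathlib
import Pool.Agent.Lib.MP_4e105e_co.Free.Small

/-!
One partial automorphism of a finite tournament extends to an automorphism of a finite tournament.
-/

set_option autoImplicit false

namespace Pool.Agent.EPPAF

/-- iterates of a partial map -/
def itR {V : Type} (P : V → V → Prop) : ℕ → V → V → Prop
  | 0 => fun x y => x = y
  | n + 1 => fun x y => ∃ z, itR P n x z ∧ P z y

theorem itR_add {V : Type} (P : V → V → Prop) (a b : ℕ) (x y : V) :
    itR P (a + b) x y ↔ ∃ z, itR P a x z ∧ itR P b z y := by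
  induction b generalizing y with
  | zero =>
    constructor
    · intro h
      exact ⟨y, h, rfl⟩
    · rintro ⟨z, h, rfl⟩
      exact h
  | succ b ih =>
    constructor
    · rintro ⟨w, hw, hwy⟩
      obtain ⟨z, h1, h2⟩ := (ih w).1 hw
      exact ⟨z, h1, w, h2, hwy⟩
    · rintro ⟨z, h1, w, h2, h3⟩
      exact ⟨w, (ih w).2 ⟨z, h1, h2⟩, h3⟩

theorem itR_one {V : Type} (P : V → V → Prop) (x y : V) : itR P 1 x y ↔ P x y := by
  constructor
  · rintro ⟨z, rfl, h⟩
    exact h
  · intro h
    exact ⟨x, rfl, h⟩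

theorem itR_paut {V : Type} {R : V → V → Prop} {P : V → V → Prop} (hP : IsPAut R P) (n : ℕ) :
    IsPAut R (itR P n) := by
  induction n with
  | zero =>
    rintro x x' y y' rfl rfl
    exact Iff.rfl
  | succ n ih =>
    rintro x x' y y' ⟨z, h1, h2⟩ ⟨w, h3, h4⟩
    exact (ih x z y w h1 h3).trans (hP z x' w y' h2 h4)

/-- iterates of a partial map, with integer exponents -/
def zR {V : Type} (P : V → V → Prop) (m : ℤ) (x y : V) : Prop :=
  (0 ≤ m ∧ itR P m.toNat x y) ∨ (m < 0 ∧ itR P (-m).toNat y x)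

theorem zR_nat {V : Type} (P : V → V → Prop) (n : ℕ) (x y : V) :
    zR P (n : ℤ) x y ↔ itR P n x y := by
  unfold zR
  constructor
  · rintro (⟨_, h⟩ | ⟨h, _⟩)
    · simpa using h
    · omega
  · intro h
    left
    exact ⟨by omega, by simpa using h⟩

theorem zR_neg {V : Type} (P : V → V → Prop) (n : ℕ) (x y : V) :
    zR P (-(n : ℤ)) x y ↔ itR P n y x := by
  unfold zR
  rcases Nat.eq_zero_or_pos n with rfl | hn
  · simp [itR, eq_comm]
  · constructor
    · rintro (⟨h, _⟩ | ⟨_, h⟩)
      · omega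
      · simpa using h
    · intro h
      right
      exact ⟨by omega, by simpa using h⟩

theorem zR_paut {V : Type} {R : V → V → Prop} {P : V → V → Prop} (hP : IsPAut R P) (m : ℤ) :
    IsPAut R (zR P m) := by
  intro x x' y y' h1 h2
  rcases Int.eq_nat_or_neg m with ⟨n, rfl | rfl⟩
  · rw [zR_nat] at h1 h2
    exact itR_paut hP n x x' y y' h1 h2
  · rw [zR_neg] at h1 h2
    exact (itR_paut hP n x' x y' y h1 h2).symm

theorem exists_cycle {V : Type} [Finite V] {R : V → V → Prop} (hR : Tour R) {P : V → V → Prop}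
    (hP : IsPAut R P) {n : ℕ} (hn : Nat.card V ≤ n) {x y : V} (h : itR P n x y) :
    ∃ c, Odd c ∧ c ≤ Nat.card V ∧ itR P c x x := by
  classical
  have hpre : ∀ k, k ≤ n → ∃ z, itR P k x z := by
    intro k hk
    obtain ⟨j, rfl⟩ := Nat.exists_eq_add_of_le hk
    obtain ⟨z, hz, _⟩ := (itR_add P k j x y).1 h
    exact ⟨z, hz⟩
  have hex : ∃ c, 0 < c ∧ c ≤ Nat.card V ∧ itR P c x x := by
    have hz : ∀ k : Fin (Nat.card V + 1), ∃ z, itR P k x z := fun k => hpre k (by omega)
    choose z hz using hz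
    have : ∃ a b : Fin (Nat.card V + 1), a ≠ b ∧ z a = z b := by
      by_contra hcon
      push Not at hcon
      have hinj : Function.Injective z := by
        intro a b hab
        by_contra hne
        exact hcon a b hne hab
      have := Nat.card_le_card_of_injective z hinj
      simp at this
    obtain ⟨a, b, hab, hz2⟩ := this
    wlog hlt : a < b generalizing a b
    · exact this b a hab.symm hz2.symm (lt_of_le_of_ne (not_lt.1 hlt) hab.symm)
    have hlt' : (a : ℕ) < b := hlt
    have h1 := hz b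
    have h2 : (b : ℕ) = (b - a : ℕ) + a := by omega
    rw [h2, itR_add, ← hz2] at h1
    obtain ⟨w, hw1, hw2⟩ := h1
    have h3 : w = x := (itR_paut hP a).injective hR hw2 (hz a)
    subst h3
    exact ⟨(b - a : ℕ), by omega, by omega, hw1⟩
  obtain ⟨h0, hle, hc⟩ := Nat.find_spec hex
  refine ⟨Nat.find hex, ?_, hle, hc⟩
  rw [← Nat.not_even_iff_odd]
  rintro ⟨d, hd⟩
  rw [hd, itR_add] at hc
  obtain ⟨z, hz1, hz2⟩ := hc
  have h4 := itR_paut hP d x z z x hz1 hz2
  have h5 : x = z := by
    by_contra hne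
    have := hR.2 x z hne
    tauto
  rw [← h5] at hz1
  have h6 := Nat.find_min' hex ⟨(by omega : 0 < d), by omega, hz1⟩
  omega

theorem itR_mul {V : Type} (P : V → V → Prop) (c k : ℕ) (x : V) (h : itR P c x x) :
    itR P (c * k) x x := by
  induction k with
  | zero => exact rfl
  | succ k ih =>
    rw [mul_add, mul_one, itR_add]
    exact ⟨x, ih, h⟩

theorem wrap {V : Type} [Finite V] {R : V → V → Prop} (hR : Tour R) {P : V → V → Prop}
    (hP : IsPAut R P) (M : ℕ) (hM : Nat.card V ≤ M)
    (hdvd : ∀ c, Odd c → c ≤ Nat.card V → c ∣ 2 * M + 1) (v u : V) :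
    itR P (M + 1) v u ↔ itR P M u v := by
  have hN : ∀ n x y, Nat.card V ≤ n → itR P n x y → itR P (2 * M + 1) x x := by
    intro n x y hn h
    obtain ⟨c, hc, hcV, hcx⟩ := exists_cycle hR hP hn h
    obtain ⟨k, hk⟩ := hdvd c hc hcV
    rw [hk]
    exact itR_mul P c k x hcx
  constructor
  · intro h
    have h1 := hN _ _ _ (by omega) h
    rw [show 2 * M + 1 = (M + 1) + M by ring, itR_add] at h1
    obtain ⟨z, h2, h3⟩ := h1
    have h4 : z = u := (itR_paut hP _).functional hR h2 h
    rw [← h4]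
    exact h3
  · intro h
    have h1 := hN _ _ _ hM h
    rw [show 2 * M + 1 = M + (M + 1) by ring, itR_add] at h1
    obtain ⟨z, h2, h3⟩ := h1
    have h4 : z = v := (itR_paut hP _).functional hR h2 h
    rw [← h4]
    exact h3

theorem zR_shift {V : Type} {R : V → V → Prop} (hR : Tour R) {P : V → V → Prop}
    (hP : IsPAut R P) {v w : V} (hvw : P v w) (m : ℤ) (u : V) :
    zR P m w u ↔ zR P (m + 1) v u := by
  rcases Int.eq_nat_or_neg m with ⟨n, rfl | rfl⟩
  · rw [zR_nat, show (n : ℤ) + 1 = ((1 + n : ℕ) : ℤ) by push_cast; ring, zR_nat, itR_add]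
    constructor
    · intro h
      exact ⟨w, (itR_one P v w).2 hvw, h⟩
    · rintro ⟨z, hz, h⟩
      have h1 : z = w := hP.functional hR ((itR_one P v z).1 hz) hvw
      rw [← h1]
      exact h
  · rcases Nat.eq_zero_or_pos n with rfl | hn
    · simp only [Nat.cast_zero, neg_zero, zero_add]
      rw [show (0 : ℤ) = ((0 : ℕ) : ℤ) by rfl, zR_nat, show (1 : ℤ) = ((1 : ℕ) : ℤ) by rfl, zR_nat,
        itR_one]
      constructor
      · intro h
        have h' : w = u := h
        rw [← h']
        exact hvw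
      · intro h
        exact hP.functional hR hvw h
    · obtain ⟨k, rfl⟩ : ∃ k, n = k + 1 := ⟨n - 1, by omega⟩
      rw [zR_neg, show -((k + 1 : ℕ) : ℤ) + 1 = -(k : ℤ) by push_cast; ring, zR_neg]
      constructor
      · rintro ⟨z, hz, h⟩
        have h1 : z = v := hP.injective hR h hvw
        rw [← h1]
        exact hz
      · intro h
        exact ⟨v, h, hvw⟩

theorem single {V : Type} [Finite V] {R : V → V → Prop} (hR : Tour R) {P : V → V → Prop}
    (hP : IsPAut R P) : Extends R {P} := by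
  classical
  obtain ⟨M, hM1, hM2⟩ : ∃ M, Nat.card V ≤ M ∧
      ∀ c, Odd c → c ≤ Nat.card V → c ∣ 2 * M + 1 := by
    have hodd : Odd (∏ j ∈ Finset.range (Nat.card V + 1), (2 * j + 1)) := by
      apply Finset.prod_induction _ Odd
      · intro a b ha hb
        exact ha.mul hb
      · exact odd_one
      · intro j _
        exact ⟨j, rfl⟩
    obtain ⟨M, hM⟩ := hodd
    refine ⟨M, ?_, ?_⟩
    · have h1 : 2 * Nat.card V + 1 ∣ ∏ j ∈ Finset.range (Nat.card V + 1), (2 * j + 1) :=
        Finset.dvd_prod_of_mem (fun j => 2 * j + 1) (Finset.mem_range.2 (by omega))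
      rw [hM] at h1
      have := Nat.le_of_dvd (by omega) h1
      omega
    · rintro c ⟨j, rfl⟩ hc
      rw [← hM]
      exact Finset.dvd_prod_of_mem (fun j => 2 * j + 1) (Finset.mem_range.2 (by omega))
  let N := 2 * M + 1
  have hNz : NeZero N := ⟨by omega⟩
  let pt : V → (ZMod N → Set V) := fun v i =>
    {u | ∃ m : ℤ, -(M : ℤ) ≤ m ∧ m ≤ M ∧ (m : ZMod N) = -i ∧ zR P m v u}
  have hNcast : ((2 * (M : ℤ) + 1 : ℤ) : ZMod N) = 0 := by
    have h1 : ((N : ℕ) : ZMod N) = 0 := ZMod.natCast_self N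
    have h2 : (2 * (M : ℤ) + 1 : ℤ) = ((N : ℕ) : ℤ) := by
      show (2 * (M : ℤ) + 1 : ℤ) = ((2 * M + 1 : ℕ) : ℤ)
      push_cast
      ring
    rw [h2, Int.cast_natCast]
    exact h1
  have huniq : ∀ m m' : ℤ, -(M : ℤ) ≤ m → m ≤ M → -(M : ℤ) ≤ m' → m' ≤ M →
      (m : ZMod N) = (m' : ZMod N) → m = m' := by
    intro m m' h1 h2 h3 h4 h5
    have h6 := (ZMod.intCast_eq_intCast_iff_dvd_sub m m' N).1 h5
    have h7 : ((N : ℕ) : ℤ) = 2 * M + 1 := by
      show ((2 * M + 1 : ℕ) : ℤ) = 2 * M + 1
      push_cast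
      ring
    rw [h7] at h6
    obtain ⟨k, hk⟩ := h6
    have hk0 : k = 0 := by
      by_contra hk0
      rcases lt_or_gt_of_ne hk0 with h8 | h8
      · have : k ≤ -1 := by omega
        nlinarith
      · have : 1 ≤ k := by omega
        nlinarith
    rw [hk0] at hk
    omega
  have hpt0 : ∀ v u, u ∈ pt v 0 ↔ v = u := by
    intro v u
    constructor
    · rintro ⟨m, h1, h2, h3, h4⟩
      have h5 : m = 0 := by
        apply huniq m 0 h1 h2 (by omega) (by omega)
        rw [h3]
        simp
      subst h5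
      rw [show (0 : ℤ) = ((0 : ℕ) : ℤ) by rfl, zR_nat] at h4
      exact h4
    · intro h
      refine ⟨0, by omega, by omega, by simp, ?_⟩
      rw [show (0 : ℤ) = ((0 : ℕ) : ℤ) by rfl, zR_nat]
      exact h
  have hinj : Function.Injective pt := by
    intro v w hvw
    have h1 : w ∈ pt v 0 := by
      rw [hvw]
      exact (hpt0 w w).2 rfl
    exact (hpt0 v w).1 h1
  have hshift : ∀ v w, P v w → ∀ i, pt w i = pt v (i - 1) := by
    intro v w hvw i
    ext u
    constructor
    · rintro ⟨m, h1, h2, h3, h4⟩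
      rw [zR_shift hR hP hvw] at h4
      by_cases h5 : m + 1 ≤ M
      · exact ⟨m + 1, by omega, h5, by push_cast; rw [h3]; ring, h4⟩
      · have h6 : m = M := by omega
        subst h6
        refine ⟨-(M : ℤ), le_rfl, by omega, ?_, ?_⟩
        · have h7 : ((-(M : ℤ) : ℤ) : ZMod N) = ((M : ℤ) : ZMod N) + 1 := by
            have h8 := hNcast
            push_cast at h8 ⊢
            linear_combination -h8
          rw [h7, h3]
          ring
        · rw [zR_neg]
          rw [show ((M : ℤ) + 1) = ((M + 1 : ℕ) : ℤ) by push_cast; ring, zR_nat] at h4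
          exact (wrap hR hP M hM1 hM2 v u).1 h4
    · rintro ⟨m, h1, h2, h3, h4⟩
      by_cases h5 : -(M : ℤ) ≤ m - 1
      · refine ⟨m - 1, h5, by omega, by push_cast; rw [h3]; ring, ?_⟩
        rw [zR_shift hR hP hvw]
        simpa using h4
      · have h6 : m = -(M : ℤ) := by omega
        subst h6
        refine ⟨(M : ℤ), by omega, le_rfl, ?_, ?_⟩
        · have h7 : ((-(M : ℤ) : ℤ) : ZMod N) = ((M : ℤ) : ZMod N) + 1 := by
            have h8 := hNcast
            push_cast at h8 ⊢
            linear_combination -h8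
          rw [h7] at h3
          linear_combination h3
        · rw [zR_shift hR hP hvw]
          rw [zR_neg] at h4
          rw [show ((M : ℤ) + 1) = ((M + 1 : ℕ) : ℤ) by push_cast; ring, zR_nat]
          exact (wrap hR hP M hM1 hM2 v u).2 h4
  -- the group of shifts
  let G : Subgroup (Equiv.Perm (ZMod N → Set V)) :=
    { carrier := {w | ∃ t : ZMod N, ∀ f i, w f i = f (i - t)}
      one_mem' := ⟨0, by intro f i; simp⟩
      mul_mem' := by
        rintro w1 w2 ⟨t1, h1⟩ ⟨t2, h2⟩
        refine ⟨t1 + t2, ?_⟩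
        intro f i
        rw [Equiv.Perm.mul_apply, h1, h2]
        congr 1
        ring
      inv_mem' := by
        rintro w ⟨t, h⟩
        refine ⟨-t, ?_⟩
        intro f i
        have h0 : w (w⁻¹ f) = f := by simp
        have h1 := h (w⁻¹ f) (i + t)
        rw [h0, add_sub_cancel_right] at h1
        rw [sub_neg_eq_add]
        exact h1.symm }
  have hns : ∀ g ∈ G, ∀ x y, g x = y → g y = x → x = y := by
    rintro g ⟨t, ht⟩ x y h1 h2
    have h3 : ∀ i, y i = x (i - t) := by
      intro i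
      rw [← h1, ht]
    have h4 : ∀ i, x i = y (i - t) := by
      intro i
      have h := ht y i
      rw [h2] at h
      exact h
    have h5 : ∀ (n : ℕ) i, x (i - n * (2 * t)) = x i := by
      intro n
      induction n with
      | zero => intro i; simp
      | succ n ih =>
        intro i
        rw [h4 i, h3 (i - t), ← ih (i - t - t)]
        congr 1
        push_cast
        ring
    funext i
    rw [h3 i, ← h5 (M + 1) i]
    congr 1
    have h8 := hNcast
    push_cast at h8 ⊢
    linear_combination -t * h8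
  let O : (ZMod N → Set V) → (ZMod N → Set V) → Prop := fun f f' =>
    ∃ t : ZMod N, ∃ x y, R x y ∧ (∀ i, f i = pt x (i - t)) ∧ (∀ i, f' i = pt y (i - t))
  have hO : ∀ g ∈ G, ∀ x y, O x y → O (g x) (g y) := by
    rintro g ⟨t, ht⟩ f f' ⟨s, x, y, hxy, h1, h2⟩
    refine ⟨s + t, x, y, hxy, ?_, ?_⟩
    · intro i
      rw [ht, h1]
      congr 1
      ring
    · intro i
      rw [ht, h2]
      congr 1
      ring
  have hanti : ∀ x y, O x y → ¬ O y x := by
    rintro f f' ⟨t, x, y, hxy, h1, h2⟩ ⟨s, x', y', hxy', h3, h4⟩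
    -- pt x (i - t) = f i = pt y' (i - s)
    have e1 : pt x (s - t) = pt y' 0 := by
      rw [← h1, h4]
      congr 1
      ring
    have e2 : pt y (s - t) = pt x' 0 := by
      rw [← h2, h3]
      congr 1
      ring
    have m1 : y' ∈ pt x (s - t) := by
      rw [e1]
      exact (hpt0 _ _).2 rfl
    have m2 : x' ∈ pt y (s - t) := by
      rw [e2]
      exact (hpt0 _ _).2 rfl
    obtain ⟨m, a1, a2, a3, a4⟩ := m1
    obtain ⟨m', b1, b2, b3, b4⟩ := m2
    have hmm : m = m' := huniq m m' a1 a2 b1 b2 (a3.trans b3.symm)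
    subst hmm
    have h5 := (zR_paut hP m x y' y x' a4 b4).1 hxy
    have h6 : x' ≠ y' := by
      intro h
      rw [h] at hxy'
      exact hR.1 _ hxy'
    exact ((hR.2 x' y' h6).1 hxy') h5
  obtain ⟨S, hS, hinv, hOS⟩ := exists_invariant_tournament G O hns hO hanti
  have hRO : ∀ a b, R a b → S (pt a) (pt b) := by
    intro a b hab
    exact hOS _ _ ⟨0, a, b, hab, by simp, by simp⟩
  refine ⟨ZMod N → Set V, inferInstance, S, hS, ⟨pt, hinj⟩, ?_, ?_⟩
  · intro x y
    refine ⟨hRO x y, fun h => ?_⟩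
    by_contra hxy
    by_cases hxe : x = y
    · subst hxe
      exact hS.1 _ h
    · have h1 : R y x := by
        by_contra h2
        exact h2 ((hR.2 y x (Ne.symm hxe)).2 hxy)
      have h3 := hRO y x h1
      have h4 : pt x ≠ pt y := fun h => hxe (hinj h)
      exact ((hS.2 _ _ h4).1 h) h3
  · rintro P' rfl
    let w : Equiv.Perm (ZMod N → Set V) := Equiv.arrowCongr (Equiv.addRight (1 : ZMod N))
      (Equiv.refl (Set V))
    have hw : ∀ f i, w f i = f (i - 1) := by
      intro f i
      simp [w, Equiv.arrowCongr, sub_eq_add_neg]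
    refine ⟨w, hinv w ⟨1, hw⟩, ?_⟩
    intro x y hxy
    funext i
    show w (pt x) i = pt y i
    rw [hw, hshift x y hxy]

end Pool.Agent.EPPAF
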