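import Mathlib
import Pool.Agent.Lib.MP_4e105e_co.Free.Single

/-!
The extension property for partial automorphisms of tournaments is equivalent to the simultaneous
extension of two maps of order three.
-/

set_option autoImplicit false

namespace Pool.Agent.EPPAF

/-- the lexicographic product: a copy of `R` for every vertex of `T` -/
def lex {V L : Type} (R : V → V → Prop) (T : L → L → Prop) : V × L → V × L → Prop :=
  fun x y => (x.2 = y.2 ∧ R x.1 y.1) ∨ T x.2 y.2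

theorem lex_tour {V L : Type} {R : V → V → Prop} {T : L → L → Prop} (hR : Tour R)
    (hT : Tour T) : Tour (lex R T) := by
  constructor
  · rintro ⟨v, i⟩ (⟨_, h⟩ | h)
    · exact hR.1 _ h
    · exact hT.1 _ h
  · rintro ⟨v, i⟩ ⟨w, j⟩ hne
    simp only [lex]
    by_cases hij : i = j
    · subst hij
      have hvw : v ≠ w := fun h => hne (by rw [h])
      have h1 := hR.2 v w hvw
      have h2 := hT.1 i
      tauto
    · have h1 := hT.2 i j hij
      have h2 : ¬ j = i := fun h => hij h.symm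
      tauto

/-- relational form of the extension property for a pair of maps of order three -/
def TwoRel : Prop :=
  ∀ (V : Type) [Finite V] (R : V → V → Prop), Tour R →
    ∀ α : V ≃ V, IsAut R α → (∀ v, α v ≠ v) → (∀ v, α (α (α v)) = v) →
    ∀ B : V → V → Prop, IsPAut R B → (∀ x, ¬ B x x) → (∀ x y, B x y → ∃ z, B y z ∧ B z x) →
      Extends R {(fun x y => α x = y), B}

abbrev L3 : Type := ZMod 3 × ZMod 3

def T3 : L3 → L3 → Prop := fun i j =>
  j - i = (1, 0) ∨ j - i = (0, 1) ∨ j - i = (1, 1) ∨ j - i = (1, 2)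

instance : DecidableRel T3 := fun i j => by unfold T3; infer_instance

theorem T3_tour : Tour T3 := by
  unfold Tour
  decide

theorem T3_add (i j t : L3) : T3 (i + t) (j + t) ↔ T3 i j := by
  unfold T3
  rw [add_sub_add_right_eq_sub]

def link {V : Type} (P : V → V → Prop) (j : ZMod 3) (v w : V) : Prop :=
  (j = 0 ∧ P v w) ∨ (j = 1 ∧ v = w ∧ ∃ u, P u v) ∨ (j = 2 ∧ P w v)

theorem link_paut {V : Type} {R : V → V → Prop} {P : V → V → Prop} (hP : IsPAut R P)
    (j : ZMod 3) : IsPAut R (link P j) := by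
  intro x x' y y' h1 h2
  rcases h1 with ⟨hj, h1⟩ | ⟨hj, rfl, _⟩ | ⟨hj, h1⟩
  · rcases h2 with ⟨_, h2⟩ | ⟨hj', _⟩ | ⟨hj', _⟩
    · exact hP _ _ _ _ h1 h2
    · exact absurd (hj.symm.trans hj') (by decide)
    · exact absurd (hj.symm.trans hj') (by decide)
  · rcases h2 with ⟨hj', _⟩ | ⟨_, rfl, _⟩ | ⟨hj', _⟩
    · exact absurd (hj.symm.trans hj') (by decide)
    · exact Iff.rfl
    · exact absurd (hj.symm.trans hj') (by decide)
  · rcases h2 with ⟨hj', _⟩ | ⟨hj', _⟩ | ⟨_, h2⟩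
    · exact absurd (hj.symm.trans hj') (by decide)
    · exact absurd (hj.symm.trans hj') (by decide)
    · exact (hP _ _ _ _ h1 h2).symm

theorem link_cyc {V : Type} {P : V → V → Prop} {j : ZMod 3} {v w : V} (h : link P j v w) :
    ∃ u, link P (j + 1) w u ∧ link P (j + 2) u v := by
  rcases h with ⟨rfl, h⟩ | ⟨rfl, rfl, u, h⟩ | ⟨rfl, h⟩
  · exact ⟨w, Or.inr (Or.inl ⟨by decide, rfl, v, h⟩), Or.inr (Or.inr ⟨by decide, h⟩)⟩
  · exact ⟨u, Or.inr (Or.inr ⟨by decide, h⟩), Or.inl ⟨by decide, h⟩⟩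
  · exact ⟨v, Or.inl ⟨by decide, h⟩, Or.inr (Or.inl ⟨by decide, rfl, w, h⟩)⟩

theorem pair_of_two (h2 : TwoRel) {V : Type} [Finite V] {R : V → V → Prop} (hR : Tour R)
    {P Q : V → V → Prop} (hP : IsPAut R P) (hQ : IsPAut R Q) : Extends R {P, Q} := by
  let RR := lex R T3
  let α : V × L3 ≃ V × L3 := Equiv.prodCongr (Equiv.refl V) (Equiv.addRight ((1, 0) : L3))
  have hα : ∀ v l, α (v, l) = (v, l + (1, 0)) := fun v l => rfl
  let B : V × L3 → V × L3 → Prop := fun x y => y.2 = x.2 + (0, 1) ∧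
    ((x.2.1 = 0 ∧ x.1 = y.1) ∨ (x.2.1 = 1 ∧ link P x.2.2 x.1 y.1) ∨
      (x.2.1 = 2 ∧ link Q x.2.2 x.1 y.1))
  have hext := h2 (V × L3) RR (lex_tour hR T3_tour) α (by
      rintro ⟨v, i⟩ ⟨w, j⟩
      simp only [hα, RR, lex, T3_add, add_left_inj]) (by
      rintro ⟨v, i⟩ h
      rw [hα] at h
      have h1 := (Prod.ext_iff.1 h).2
      have h3 : ∀ i : L3, i + (1, 0) ≠ i := by decide
      exact h3 i h1) (by
      rintro ⟨v, i⟩
      rw [hα, hα, hα]
      have h3 : ∀ i : L3, i + (1, 0) + (1, 0) + (1, 0) = i := by decide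
      rw [h3]) B (by
      rintro ⟨v, i⟩ ⟨v', i'⟩ ⟨w, j⟩ ⟨w', j'⟩ ⟨hi, h1⟩ ⟨hj, h3⟩
      simp only at hi hj h1 h3
      subst hi
      subst hj
      simp only [RR, lex, T3_add, add_left_inj]
      have key : i = j → (R v w ↔ R v' w') := by
        intro hij
        subst hij
        rcases h1 with ⟨e1, h1⟩ | ⟨e1, h1⟩ | ⟨e1, h1⟩
        · rcases h3 with ⟨_, h3⟩ | ⟨e3, _⟩ | ⟨e3, _⟩
          · subst h1; subst h3; exact Iff.rfl
          · exact absurd (e1.symm.trans e3) (by decide)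
          · exact absurd (e1.symm.trans e3) (by decide)
        · rcases h3 with ⟨e3, _⟩ | ⟨_, h3⟩ | ⟨e3, _⟩
          · exact absurd (e1.symm.trans e3) (by decide)
          · exact link_paut hP _ _ _ _ _ h1 h3
          · exact absurd (e1.symm.trans e3) (by decide)
        · rcases h3 with ⟨e3, _⟩ | ⟨e3, _⟩ | ⟨_, h3⟩
          · exact absurd (e1.symm.trans e3) (by decide)
          · exact absurd (e1.symm.trans e3) (by decide)
          · exact link_paut hQ _ _ _ _ _ h1 h3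
      constructor
      · rintro (⟨h4, h5⟩ | h4)
        · exact Or.inl ⟨h4, (key h4).1 h5⟩
        · exact Or.inr h4
      · rintro (⟨h4, h5⟩ | h4)
        · exact Or.inl ⟨h4, (key h4).2 h5⟩
        · exact Or.inr h4) (by
      rintro ⟨v, i⟩ ⟨h, _⟩
      have h3 : ∀ i : L3, i ≠ i + (0, 1) := by decide
      exact h3 i h) (by
      rintro ⟨v, i⟩ ⟨w, j⟩ ⟨hj, h⟩
      simp only at hj h
      subst hj
      have e1 : ∀ i : L3, i + (0, 1) + (0, 1) + (0, 1) = i := by decide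
      have e2 : ∀ i : L3, (i + (0, 1)).1 = i.1 := by decide
      have e3 : ∀ i : L3, (i + (0, 1)).2 = i.2 + 1 := by decide
      have e4 : ∀ i : L3, (i + (0, 1) + (0, 1)).2 = i.2 + 2 := by decide
      rcases h with ⟨h1, h3⟩ | ⟨h1, h3⟩ | ⟨h1, h3⟩
      · subst h3
        refine ⟨(v, i + (0, 1) + (0, 1)), ⟨rfl, Or.inl ⟨?_, rfl⟩⟩, ⟨(e1 i).symm, Or.inl ⟨?_, rfl⟩⟩⟩
        · simp only [e2, h1]
        · simp only [e2, h1]
      · obtain ⟨u, hu1, hu2⟩ := link_cyc h3
        refine ⟨(u, i + (0, 1) + (0, 1)), ⟨rfl, Or.inr (Or.inl ⟨?_, ?_⟩)⟩,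
          ⟨(e1 i).symm, Or.inr (Or.inl ⟨?_, ?_⟩)⟩⟩
        · simp only [e2, h1]
        · simp only [e3]; exact hu1
        · simp only [e2, h1]
        · simp only [e4]; exact hu2
      · obtain ⟨u, hu1, hu2⟩ := link_cyc h3
        refine ⟨(u, i + (0, 1) + (0, 1)), ⟨rfl, Or.inr (Or.inr ⟨?_, ?_⟩)⟩,
          ⟨(e1 i).symm, Or.inr (Or.inr ⟨?_, ?_⟩)⟩⟩
        · simp only [e2, h1]
        · simp only [e3]; exact hu1
        · simp only [e2, h1]
        · simp only [e4]; exact hu2)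
  obtain ⟨W, hW, S, hS, e, he, hF⟩ := hext
  obtain ⟨a, ha, ha2⟩ := hF _ (Or.inl rfl)
  obtain ⟨b, hb, hb2⟩ := hF B (Or.inr rfl)
  have hinj : Function.Injective (fun v : V => e (v, ((0, 0) : L3))) := by
    intro v w h
    exact (Prod.ext_iff.1 (e.injective h)).1
  have haut : ∀ g h : W ≃ W, IsAut S g → IsAut S h → IsAut S (g.trans h) := by
    intro g h hg hh x y
    rw [hg x y, hh (g x) (g y)]
    rfl
  have hinv : ∀ g : W ≃ W, IsAut S g → IsAut S g.symm := by
    intro g hg x y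
    rw [hg (g.symm x) (g.symm y)]
    simp
  have h0a : ∀ v (l : L3), a (e (v, l)) = e (v, l + (1, 0)) := fun v l => ha2 _ _ (hα v l)
  have h0s : ∀ v (l : L3), a.symm (e (v, l + (1, 0))) = e (v, l) := by
    intro v l
    rw [← h0a v l]
    simp
  have h0b : ∀ v, b.symm (e (v, ((0, 1) : L3))) = e (v, ((0, 0) : L3)) := by
    intro v
    have e0 : ((0, 1) : L3) = (0, 0) + (0, 1) := by decide
    have h := hb2 (v, ((0, 0) : L3)) (v, ((0, 1) : L3)) ⟨e0, Or.inl ⟨rfl, rfl⟩⟩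
    rw [← h]
    simp
  refine ⟨W, hW, S, hS, ⟨_, hinj⟩, ?_, ?_⟩
  · intro x y
    have h := he (x, ((0, 0) : L3)) (y, ((0, 0) : L3))
    show R x y ↔ S (e (x, ((0, 0) : L3))) (e (y, ((0, 0) : L3)))
    rw [← h]
    have h3 : ¬ T3 ((0, 0) : L3) ((0, 0) : L3) := by decide
    simp only [RR, lex]
    constructor
    · intro h4
      exact Or.inl ⟨trivial, h4⟩
    · rintro (⟨_, h4⟩ | h4)
      · exact h4
      · exact absurd h4 h3
  · rintro P' (rfl | rfl)
    · refine ⟨a.trans (b.trans (a.symm.trans b.symm)), haut _ _ ha (haut _ _ hb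
        (haut _ _ (hinv _ ha) (hinv _ hb))), ?_⟩
      intro x y hxy
      show b.symm (a.symm (b (a (e (x, ((0, 0) : L3)))))) = e (y, ((0, 0) : L3))
      rw [h0a]
      have e0 : ((0, 1) : L3) + (1, 0) = (0, 0) + (1, 0) + (0, 1) := by decide
      have e1 : (((0, 0) : L3) + (1, 0)).1 = 1 := by decide
      have e2 : (((0, 0) : L3) + (1, 0)).2 = 0 := by decide
      have h := hb2 (x, ((0, 0) : L3) + (1, 0)) (y, ((0, 1) : L3) + (1, 0)) ⟨e0,
        Or.inr (Or.inl ⟨e1, Or.inl ⟨e2, hxy⟩⟩)⟩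
      rw [h, h0s, h0b]
    · refine ⟨a.trans (a.trans (b.trans (a.symm.trans (a.symm.trans b.symm)))), haut _ _ ha
        (haut _ _ ha (haut _ _ hb (haut _ _ (hinv _ ha) (haut _ _ (hinv _ ha) (hinv _ hb))))), ?_⟩
      intro x y hxy
      show b.symm (a.symm (a.symm (b (a (a (e (x, ((0, 0) : L3)))))))) = e (y, ((0, 0) : L3))
      rw [h0a, h0a]
      have e0 : ((0, 1) : L3) + (1, 0) + (1, 0) = (0, 0) + (1, 0) + (1, 0) + (0, 1) := by decide
      have e1 : (((0, 0) : L3) + (1, 0) + (1, 0)).1 = 2 := by decide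
      have e2 : (((0, 0) : L3) + (1, 0) + (1, 0)).2 = 0 := by decide
      have h := hb2 (x, ((0, 0) : L3) + (1, 0) + (1, 0)) (y, ((0, 1) : L3) + (1, 0) + (1, 0))
        ⟨e0, Or.inr (Or.inr ⟨e1, Or.inl ⟨e2, hxy⟩⟩)⟩
      rw [h, h0s, h0s, h0b]

/-- the cyclic tournament on `ZMod (2k+1)` -/
def TC (k : ℕ) : ZMod (2 * k + 1) → ZMod (2 * k + 1) → Prop := fun i j =>
  i ≠ j ∧ (j - i).val ≤ k

theorem TC_tour (k : ℕ) : Tour (TC k) := by
  have hNz : NeZero (2 * k + 1) := ⟨by omega⟩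
  constructor
  · intro x h
    exact h.1 rfl
  · intro x y hxy
    have h0 : y - x ≠ 0 := sub_ne_zero.2 hxy.symm
    have h1 : (x - y).val = 2 * k + 1 - (y - x).val := by
      rw [← neg_sub, ZMod.neg_val, if_neg h0]
    have h2 : (y - x).val ≠ 0 := by
      rw [ne_eq, ZMod.val_eq_zero]
      exact h0
    have h3 : (y - x).val < 2 * k + 1 := ZMod.val_lt _
    simp only [TC]
    constructor
    · rintro ⟨_, h4⟩ ⟨_, h5⟩
      omega
    · intro h4
      refine ⟨hxy, ?_⟩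
      by_contra h5
      exact h4 ⟨hxy.symm, by omega⟩

theorem TC_add (k : ℕ) (i j t : ZMod (2 * k + 1)) : TC k (i + t) (j + t) ↔ TC k i j := by
  unfold TC
  rw [add_sub_add_right_eq_sub, ne_eq, ne_eq, add_left_inj]

theorem all_of_pairs (hpair : ∀ (V : Type) [Finite V] (R : V → V → Prop), Tour R →
    ∀ P Q : V → V → Prop, IsPAut R P → IsPAut R Q → Extends R {P, Q})
    {V : Type} [Finite V] {R : V → V → Prop} (hR : Tour R) :
    Extends R {P | IsPAut R P} := by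
  classical
  let K := {P : V → V → Prop // IsPAut R P}
  let k := Nat.card K
  have hNz : NeZero (2 * k + 1) := ⟨by omega⟩
  have hcard : Nat.card K ≤ Nat.card (ZMod (2 * k + 1)) := by
    rw [Nat.card_zmod]
    omega
  obtain ⟨idx, hidx⟩ : ∃ idx : K → ZMod (2 * k + 1), Function.Injective idx := by
    have : Fintype K := Fintype.ofFinite K
    have : Fintype (ZMod (2 * k + 1)) := Fintype.ofFinite _
    rw [Nat.card_eq_fintype_card, Nat.card_eq_fintype_card] at hcard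
    obtain ⟨f⟩ := Function.Embedding.nonempty_of_card_le hcard
    exact ⟨f, f.injective⟩
  let L := ZMod (2 * k + 1)
  let RR : V × L → V × L → Prop := lex R (TC k)
  let A : V × L → V × L → Prop := fun x y => y = (x.1, x.2 + 1)
  let B : V × L → V × L → Prop := fun x y => x.2 = y.2 ∧ ∃ κ : K, idx κ = x.2 ∧ κ.1 x.1 y.1
  have hA : IsPAut RR A := by
    rintro ⟨v, i⟩ x' ⟨w, j⟩ y' rfl rfl
    have h := TC_add k i j 1
    simp only [RR, lex, add_left_inj]
    rw [← h]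
  have hB : IsPAut RR B := by
    rintro ⟨v, i⟩ ⟨v', i'⟩ ⟨w, j⟩ ⟨w', j'⟩ ⟨h1, κ, h2, h3⟩ ⟨h4, κ', h5, h6⟩
    simp only at h1 h2 h3 h4 h5 h6
    subst h1
    subst h4
    simp only [RR, lex]
    constructor
    · rintro (⟨h7, h8⟩ | h7)
      · subst h7
        have h9 : κ = κ' := hidx (h2.trans h5.symm)
        subst h9
        exact Or.inl ⟨rfl, (κ.2 _ _ _ _ h3 h6).1 h8⟩
      · exact Or.inr h7
    · rintro (⟨h7, h8⟩ | h7)
      · subst h7
        have h9 : κ = κ' := hidx (h2.trans h5.symm)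
        subst h9
        exact Or.inl ⟨rfl, (κ.2 _ _ _ _ h3 h6).2 h8⟩
      · exact Or.inr h7
  obtain ⟨W, hW, S, hS, e, he, hF⟩ := hpair (V × L) RR (lex_tour hR (TC_tour k)) A B hA hB
  obtain ⟨a, ha, ha2⟩ := hF A (Or.inl rfl)
  obtain ⟨b, hb, hb2⟩ := hF B (Or.inr rfl)
  have hinj : Function.Injective (fun v : V => e (v, (0 : L))) := by
    intro v w h
    exact (Prod.ext_iff.1 (e.injective h)).1
  have hpow : ∀ (n : ℕ) (v : V), ((a : Equiv.Perm W) ^ n) (e (v, (0 : L))) = e (v, (n : L)) := by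
    intro n
    induction n with
    | zero => intro v; simp
    | succ n ih =>
      intro v
      rw [pow_succ', Equiv.Perm.mul_apply, ih]
      have h := ha2 (v, (n : L)) (v, (n : L) + 1) rfl
      rw [h]
      simp
  refine ⟨W, hW, S, hS, ⟨_, hinj⟩, ?_, ?_⟩
  · intro x y
    have h := he (x, (0 : L)) (y, (0 : L))
    show R x y ↔ S (e (x, (0 : L))) (e (y, (0 : L)))
    rw [← h]
    have h3 : ¬ TC k (0 : L) (0 : L) := (TC_tour k).1 _
    simp only [RR, lex]
    constructor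
    · intro h4
      exact Or.inl ⟨trivial, h4⟩
    · rintro (⟨_, h4⟩ | h4)
      · exact h4
      · exact absurd h4 h3
  · intro P hP
    let n := (idx ⟨P, hP⟩).val
    have hn : ((n : ℕ) : L) = idx ⟨P, hP⟩ := ZMod.natCast_zmod_val _
    let g : Equiv.Perm W := ((a : Equiv.Perm W) ^ n)⁻¹ * (b : Equiv.Perm W) * (a : Equiv.Perm W) ^ n
    have hg : g ∈ autG S := by
      have h1 : (a : Equiv.Perm W) ^ n ∈ autG S := (autG S).pow_mem ha n
      exact (autG S).mul_mem ((autG S).mul_mem ((autG S).inv_mem h1) hb) h1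
    refine ⟨g, hg, ?_⟩
    intro x y hxy
    show ((a : Equiv.Perm W) ^ n)⁻¹ (b (((a : Equiv.Perm W) ^ n) (e (x, (0 : L))))) = e (y, (0 : L))
    rw [hpow, hb2 (x, (n : L)) (y, (n : L)) ⟨rfl, ⟨P, hP⟩, hn.symm, hxy⟩, ← hpow]
    simp

end Pool.Agent.EPPAF
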